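import Pool.Agent.W_MP_3ad462_an.Defs
import Pool.Agent.W_MP_3ad462_an.Rot

open scoped ENNReal
open Pool.Agent.W_MP_3ad462_an

namespace Pool.Agent.Results.MP_3ad462_an.DenseInvertibles

/-- For every `p ∈ [1, ∞)` and every irrational `θ`, the invertible elements of the reduced
`Lᵖ` irrational rotation algebra are norm dense. -/
theorem result (p : ℝ≥0∞) [Fact (1 ≤ p)] (_hp : p ≠ ∞) (θ : ℝ) (hθ : Irrational θ) :
    Dense {a : FpReduced p (rotation θ) | IsUnit a} := by
  let ι : TwConv (rotation θ) →+* FpReduced p (rotation θ) :=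
    (UniformSpace.Completion.coeRingHom : PreReduced p (rotation θ) →+* _)
  have hι : ∀ a, ‖ι a‖ ≤ ell1 a := by
    intro a
    have h1 : ‖ι a‖ = rnorm p (rotation θ) a :=
      UniformSpace.Completion.norm_coe (E := PreReduced p (rotation θ)) a
    rw [h1]
    exact rnorm_le p _ a (ell1_nonneg a) fun ρ => ρ.π.norm_integrated_le _ p a
  exact dense_isUnit ι hι (goodDyn_rotation hθ)
    (UniformSpace.Completion.denseRange_coe (α := PreReduced p (rotation θ)))

end Pool.Agent.Results.MP_3ad462_an.DenseInvertibles
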